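import Mathlib

set_option autoImplicit false

namespace Pool.Agent.Results.MP_ee7763_co.Yes

open Finset

/-- perfect: chromatic number equals clique number for every induced subgraph -/
def IsPerfect {V : Type} (G : SimpleGraph V) : Prop :=
  ∀ s : Set V, (G.induce s).chromaticNumber = ((G.induce s).cliqueNum : ℕ∞)

/-- inclusion-maximal stable set -/
def MaxStable {V : Type} (G : SimpleGraph V) (S : Finset V) : Prop :=
  Maximal (fun T : Finset V => G.IsIndepSet (T : Set V)) S

def Equistable {V : Type} (G : SimpleGraph V) : Prop :=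
  ∃ φ : V → ℝ, (∀ v, 0 < φ v) ∧ ∀ S : Finset V, MaxStable G S ↔ ∑ v ∈ S, φ v = 1

def GenPartition {V : Type} (G : SimpleGraph V) : Prop :=
  ∃ (U : Type) (F : V → Set U), (∀ x, (F x).Nonempty) ∧
    (∀ x y, x ≠ y → (G.Adj x y ↔ (F x ∩ F y).Nonempty)) ∧
    ∀ S : Finset V, MaxStable G S →
      (∀ x ∈ S, ∀ y ∈ S, x ≠ y → Disjoint (F x) (F y)) ∧ (⋃ x ∈ S, F x) = Set.univ

section
variable {V : Type} [Fintype V] [DecidableEq V] {G : SimpleGraph V}

omit [Fintype V] in
lemma meet_le_one {K S : Finset V} (hK : G.IsClique (K : Set V)) (hS : G.IsIndepSet (S : Set V)) :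
    ∑ u ∈ K, (if u ∈ S then 1 else 0) ≤ 1 := by
  rw [← Finset.card_filter, Finset.card_le_one]
  intro a ha b hb
  rw [mem_filter] at ha hb
  by_contra hne
  exact hS ha.2 hb.2 hne (hK ha.1 hb.1 hne)

lemma cover_base (hG : IsPerfect G) (w : V → ℕ) (hw : ∀ v, w v ≤ 1) (k : ℕ)
    (hk : ∀ K : Finset V, G.IsClique (K : Set V) → ∑ u ∈ K, w u ≤ k) :
    ∃ S : Fin k → Finset V, (∀ i, G.IsIndepSet (S i : Set V)) ∧
      ∀ u, w u ≤ ∑ i, if u ∈ S i then 1 else 0 := by
  classical
  let s : Set V := {u | w u = 1}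
  have h1 : (G.induce s).cliqueNum ≤ k := by
    obtain ⟨K, hK⟩ := (G.induce s).exists_isNClique_cliqueNum
    have h2 := hk (K.map (Function.Embedding.subtype _)) (by
      intro a ha b hb hne
      simp only [coe_map, Function.Embedding.subtype_apply, Set.mem_image, mem_coe] at ha hb
      obtain ⟨a', ha', rfl⟩ := ha
      obtain ⟨b', hb', rfl⟩ := hb
      exact hK.1 ha' hb' (fun e => hne (congrArg Subtype.val e)))
    rw [Finset.sum_map] at h2
    have h3 : ∑ x ∈ K, w ((Function.Embedding.subtype (· ∈ s)) x) = K.card := by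
      rw [Finset.card_eq_sum_ones]
      exact Finset.sum_congr rfl (fun x _ => x.2)
    rw [h3, hK.2] at h2
    exact h2
  have h2 : (G.induce s).Colorable k := by
    rw [← SimpleGraph.chromaticNumber_le_iff_colorable, hG s]
    exact_mod_cast h1
  obtain ⟨C⟩ := h2
  refine ⟨fun i => univ.filter (fun u => ∃ h : u ∈ s, C ⟨u, h⟩ = i), fun i => ?_, fun u => ?_⟩
  · intro a ha b hb _ hadj
    simp only [coe_filter, mem_univ, true_and, Set.mem_ofPred_eq] at ha hb
    obtain ⟨h1, e1⟩ := ha
    obtain ⟨h2, e2⟩ := hb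
    exact C.valid (v := ⟨a, h1⟩) (w := ⟨b, h2⟩) hadj (e1.trans e2.symm)
  · by_cases h : u ∈ s
    · have : w u = 1 := h
      rw [this]
      refine le_trans ?_ (Finset.single_le_sum (f := fun i => if u ∈ univ.filter
        (fun u => ∃ h : u ∈ s, C ⟨u, h⟩ = i) then 1 else 0) (fun _ _ => Nat.zero_le _)
        (mem_univ (C ⟨u, h⟩)))
      simp [h]
    · have h1 : w u ≠ 1 := h
      have := hw u
      omega

lemma cover (hG : IsPerfect G) : ∀ (n : ℕ) (w : V → ℕ), ∑ u, w u = n → ∀ k : ℕ,
    (∀ K : Finset V, G.IsClique (K : Set V) → ∑ u ∈ K, w u ≤ k) →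
    ∃ S : Fin k → Finset V, (∀ i, G.IsIndepSet (S i : Set V)) ∧
      ∀ u, w u ≤ ∑ i, if u ∈ S i then 1 else 0 := by
  intro n
  induction n using Nat.strong_induction_on with
  | _ n ih =>
  intro w hn k hk
  by_cases hw : ∀ v, w v ≤ 1
  · exact cover_base hG w hw k hk
  push Not at hw
  obtain ⟨v, hv⟩ := hw
  let w1 : V → ℕ := fun u => if u = v then w u - 1 else w u
  have h1 : ∀ u, w1 u ≤ w u := fun u => by simp only [w1]; split_ifs <;> omega
  have h1v : w1 v < w v := by simp only [w1, if_true]; omega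
  obtain ⟨S, hS, hc⟩ := ih (∑ u, w1 u)
    (hn ▸ Finset.sum_lt_sum (fun u _ => h1 u) ⟨v, mem_univ _, h1v⟩) w1 rfl k
    (fun K hK => (Finset.sum_le_sum (fun u _ => h1 u)).trans (hk K hK))
  have : ∃ i, v ∈ S i := by
    by_contra h
    push Not at h
    have := hc v
    simp [h, w1] at this
    omega
  obtain ⟨i0, hi0⟩ := this
  obtain ⟨k, rfl⟩ : ∃ k', k = k' + 1 := ⟨k - 1, by have := i0.2; omega⟩
  let w2 : V → ℕ := fun u => if u ∈ S i0 then w u - 1 else w u
  have h2 : ∀ u, w2 u ≤ w u := fun u => by simp only [w2]; split_ifs <;> omega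
  have h2v : w2 v < w v := by simp only [w2, hi0, if_true]; omega
  obtain ⟨S', hS', hc'⟩ := ih (∑ u, w2 u)
    (hn ▸ Finset.sum_lt_sum (fun u _ => h2 u) ⟨v, mem_univ _, h2v⟩) w2 rfl k (by
      intro K hK
      have hkK := hk K hK
      by_cases hex : ∃ u ∈ K, u ∈ S i0 ∧ 0 < w u
      · obtain ⟨u, hu, hu1, hu2⟩ := hex
        have : ∑ u ∈ K, w2 u < ∑ u ∈ K, w u := Finset.sum_lt_sum (fun u _ => h2 u)
          ⟨u, hu, by simp only [w2, hu1, if_true]; omega⟩
        omega
      · push Not at hex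
        have hvK : v ∉ K := fun h => by have := hex v h hi0; omega
        let K' := K.filter (fun u => 0 < w u)
        have hK' : G.IsClique (K' : Set V) := hK.subset (coe_subset.2 (filter_subset _ _))
        have e1 : ∑ u ∈ K, w u = ∑ u ∈ K', w u := by
          rw [Finset.sum_filter]
          apply Finset.sum_congr rfl
          intro u _
          split_ifs <;> omega
        have e2 : ∑ u ∈ K', w u ≤ ∑ u ∈ K', ∑ i, if u ∈ S i then 1 else 0 := by
          apply Finset.sum_le_sum
          intro u hu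
          have hne : u ≠ v := fun e => hvK (e ▸ (mem_filter.1 hu).1)
          have := hc u
          simpa only [w1, hne, if_false] using this
        rw [Finset.sum_comm] at e2
        have e3 : ∑ i, ∑ u ∈ K', (if u ∈ S i then 1 else 0) < ∑ _i : Fin (k + 1), 1 := by
          refine Finset.sum_lt_sum (fun i _ => meet_le_one hK' (hS i)) ⟨i0, mem_univ _, ?_⟩
          rw [Finset.sum_eq_zero]
          · norm_num
          · intro u hu
            rw [mem_filter] at hu
            rw [if_neg]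
            intro h
            have := hex u hu.1 h
            omega
        simp only [sum_const, card_univ, Fintype.card_fin, smul_eq_mul, mul_one] at e3
        have : ∑ u ∈ K, w2 u ≤ ∑ u ∈ K, w u := Finset.sum_le_sum (fun u _ => h2 u)
        omega)
  refine ⟨Fin.cons (S i0) S', fun i => ?_, fun u => ?_⟩
  · refine Fin.cases ?_ (fun j => ?_) i
    · exact hS i0
    · exact hS' j
  · rw [Fin.sum_univ_succ]
    simp only [Fin.cons_zero, Fin.cons_succ]
    have := hc' u
    simp only [w2] at this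
    split_ifs at this ⊢ <;> omega

lemma cover_max (hG : IsPerfect G) (w : V → ℕ) (k : ℕ)
    (hk : ∀ K : Finset V, G.IsClique (K : Set V) → ∑ u ∈ K, w u ≤ k) :
    ∃ S : Fin k → Finset V, (∀ i, MaxStable G (S i)) ∧
      ∀ u, w u ≤ ∑ i, if u ∈ S i then 1 else 0 := by
  obtain ⟨S, hS, hc⟩ := cover hG _ w rfl k hk
  choose T h1 h2 using fun i => Finite.exists_le_maximal
    (p := fun T : Finset V => G.IsIndepSet (T : Set V)) (hS i)
  refine ⟨T, h2, fun u => (hc u).trans (Finset.sum_le_sum (fun i _ => ?_))⟩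
  split_ifs with a b
  · exact le_rfl
  · exact absurd (h1 i a) b
  · omega
  · exact le_rfl

def Strong (G : SimpleGraph V) (K : Finset V) : Prop :=
  G.IsClique (K : Set V) ∧ ∀ S, MaxStable G S → ∃ u ∈ K, u ∈ S

open Classical in
noncomputable def MS (G : SimpleGraph V) : Finset (Finset V) := univ.filter (MaxStable G)

omit [DecidableEq V] in
lemma mem_MS {S : Finset V} : S ∈ MS G ↔ MaxStable G S := by simp [MS]

noncomputable def dg (G : SimpleGraph V) (u : V) : ℕ := ∑ S ∈ MS G, if u ∈ S then 1 else 0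

lemma dg_le {K : Finset V} (hK : G.IsClique (K : Set V)) : ∑ u ∈ K, dg G u ≤ (MS G).card := by
  unfold dg
  rw [Finset.sum_comm, Finset.card_eq_sum_ones]
  exact Finset.sum_le_sum (fun S hS => meet_le_one hK (mem_MS.1 hS).prop)

lemma dg_lt {K : Finset V} (hK : G.IsClique (K : Set V)) (h : ¬ Strong G K) :
    ∑ u ∈ K, dg G u < (MS G).card := by
  unfold dg
  rw [Finset.sum_comm, Finset.card_eq_sum_ones]
  unfold Strong at h
  push Not at h
  obtain ⟨S, hS, h2⟩ := h hK
  refine Finset.sum_lt_sum (fun S hS => meet_le_one hK (mem_MS.1 hS).prop) ⟨S, mem_MS.2 hS, ?_⟩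
  rw [Finset.sum_eq_zero (fun u hu => if_neg (h2 u hu))]
  norm_num

omit [Fintype V] in
lemma meet_eq_one {K S : Finset V} (hK : Strong G K) (hS : MaxStable G S) :
    ∑ u ∈ K, (if u ∈ S then 1 else 0) = 1 := by
  refine le_antisymm (meet_le_one hK.1 hS.prop) ?_
  obtain ⟨u, h1, h2⟩ := hK.2 S hS
  refine le_trans ?_ (Finset.single_le_sum (f := fun u => if u ∈ S then 1 else 0)
    (fun _ _ => Nat.zero_le _) h1)
  simp [h2]

lemma dg_eq {K : Finset V} (hK : Strong G K) : ∑ u ∈ K, dg G u = (MS G).card := by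
  unfold dg
  rw [Finset.sum_comm, Finset.card_eq_sum_ones]
  exact Finset.sum_congr rfl (fun S hS => meet_eq_one hK (mem_MS.1 hS))

lemma phi_sum {ι : Type} (φ : V → ℝ) (I : Finset ι) (S : ι → Finset V)
    (h : ∀ i ∈ I, ∑ v ∈ S i, φ v = 1) :
    ∑ u, φ u * ((∑ i ∈ I, if u ∈ S i then 1 else 0 : ℕ) : ℝ) = I.card := by
  push_cast
  simp only [Finset.mul_sum]
  rw [Finset.sum_comm, Finset.card_eq_sum_ones]
  push_cast
  apply Finset.sum_congr rfl
  intro i hi
  simpa using h i hi

lemma vertex_strong (hG : IsPerfect G) (hE : Equistable G) (v : V) : ∃ K, Strong G K ∧ v ∈ K := by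
  by_contra hc
  push Not at hc
  obtain ⟨φ, hφ, hS⟩ := hE
  obtain ⟨S, h1, h2⟩ := cover_max hG (fun u => (if u = v then 1 else 0) + dg G u) (MS G).card (by
    intro K hK
    rw [Finset.sum_add_distrib, Finset.sum_ite_eq']
    split_ifs with h
    · have := dg_lt hK (fun e => hc K e h)
      omega
    · have := dg_le hK
      omega)
  have e1 := phi_sum φ univ S (fun i _ => (hS _).1 (h1 i))
  have e2 := phi_sum φ (MS G) id (fun S h => (hS _).1 (mem_MS.1 h))
  have e3 : ∑ u, φ u * (((if u = v then 1 else 0) + dg G u : ℕ) : ℝ) ≤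
      ∑ u, φ u * ((∑ i, if u ∈ S i then 1 else 0 : ℕ) : ℝ) :=
    Finset.sum_le_sum (fun u _ => mul_le_mul_of_nonneg_left (by exact_mod_cast h2 u) (hφ u).le)
  rw [e1] at e3
  simp only [Nat.cast_add, mul_add, Finset.sum_add_distrib] at e3
  have e4 : ∑ u, φ u * (dg G u : ℝ) = (MS G).card := e2
  rw [e4] at e3
  simp at e3
  have := hφ v
  linarith

lemma edge_strong (hG : IsPerfect G) (hE : Equistable G) {x y : V} (hxy : G.Adj x y) :
    ∃ K, Strong G K ∧ x ∈ K ∧ y ∈ K := by
  by_contra hc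
  push Not at hc
  have hv := vertex_strong hG hE
  obtain ⟨φ, hφ, hS⟩ := hE
  obtain ⟨S, h1, h2⟩ := cover_max hG
    (fun u => (if u = x then 1 else 0) + (if u = y then 1 else 0) + dg G u) ((MS G).card + 1) (by
    intro K hK
    rw [Finset.sum_add_distrib, Finset.sum_add_distrib, Finset.sum_ite_eq', Finset.sum_ite_eq']
    have := dg_le hK
    split_ifs with h h'
    · have := dg_lt hK (fun e => hc K e h h')
      omega
    all_goals omega)
  have e1 := phi_sum φ univ S (fun i _ => (hS _).1 (h1 i))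
  have e2 : ∑ u, φ u * (dg G u : ℝ) = (MS G).card :=
    phi_sum φ (MS G) id (fun S h => (hS _).1 (mem_MS.1 h))
  set c : V → ℕ := fun u => ∑ i, if u ∈ S i then 1 else 0 with hcdef
  have h3 : ∀ u, dg G u ≤ c u := fun u => by have := h2 u; simp only [c]; omega
  have h4 : ∀ u, c u ≤ dg G u + 1 := by
    intro u
    obtain ⟨K, hK, hu⟩ := hv u
    have a1 : ∑ u ∈ K, c u = (MS G).card + 1 := by
      simp only [c]
      rw [Finset.sum_comm, Finset.sum_congr rfl (fun i _ => meet_eq_one hK (h1 i))]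
      simp
    have a2 := dg_eq hK
    rw [← Finset.add_sum_erase K _ hu] at a1 a2
    have a3 : ∑ z ∈ K.erase u, dg G z ≤ ∑ z ∈ K.erase u, c z :=
      Finset.sum_le_sum (fun z _ => h3 z)
    omega
  let T : Finset V := univ.filter (fun u => c u = dg G u + 1)
  have hT : ∑ v ∈ T, φ v = 1 := by
    have : ∑ u, φ u * (c u : ℝ) = ∑ u, φ u * (dg G u : ℝ) + ∑ v ∈ T, φ v := by
      rw [Finset.sum_filter, ← Finset.sum_add_distrib]
      apply Finset.sum_congr rfl
      intro u _
      split_ifs with h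
      · rw [h]; push_cast; ring
      · have : c u = dg G u := by have := h3 u; have := h4 u; omega
        rw [this, add_zero]
    have e5 : ∑ u, φ u * (c u : ℝ) = (MS G).card + 1 := by
      rw [hcdef, e1]; simp
    linarith
  have hx : x ∈ T := by
    have a := h2 x
    have b := h4 x
    simp only [T, mem_filter, mem_univ, true_and]
    simp only [if_true] at a
    simp only [c] at b ⊢
    omega
  have hy : y ∈ T := by
    have a := h2 y
    have b := h4 y
    simp only [T, mem_filter, mem_univ, true_and]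
    simp only [if_true] at a
    simp only [c] at b ⊢
    omega
  exact ((hS T).2 hT).prop hx hy hxy.ne hxy

end

theorem result (V : Type) [Fintype V] (G : SimpleGraph V) (hG : IsPerfect G)
    (hE : Equistable G) : GenPartition G := by
  classical
  refine ⟨{K : Finset V // Strong G K}, fun x => {K | x ∈ K.1}, fun x => ?_, fun x y hne => ?_,
    fun S hS => ⟨fun x hx y hy hne => ?_, ?_⟩⟩
  · obtain ⟨K, h1, h2⟩ := vertex_strong hG hE x
    exact ⟨⟨K, h1⟩, h2⟩
  · constructor
    · intro h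
      obtain ⟨K, h1, h2, h3⟩ := edge_strong hG hE h
      exact ⟨⟨K, h1⟩, h2, h3⟩
    · rintro ⟨K, h1, h2⟩
      exact K.2.1 h1 h2 hne
  · rw [Set.disjoint_left]
    intro K h1 h2
    exact hS.prop hx hy hne (K.2.1 h1 h2 hne)
  · rw [Set.eq_univ_iff_forall]
    intro K
    obtain ⟨u, h1, h2⟩ := K.2.2 S hS
    simp only [Set.mem_iUnion]
    exact ⟨u, h2, h1⟩

end Pool.Agent.Results.MP_ee7763_co.Yes
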